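import Mathlib

set_option autoImplicit false
set_option linter.unusedSectionVars false

/-!
# Symmetric designs: basic facts

`repl` and `facts` are taken from the starting library (`Pool.Agent.H951R4.OD.Design`).
-/

namespace Pool.Agent.N345.Sym

open Finset Matrix

/-- the blocks `B i` form a symmetric `2-(v, k, lam)` design on `Fin v` with `2 ≤ k < v` -/
structure Des (v k lam : ℕ) (B : Fin v → Finset (Fin v)) : Prop where
  two_le : 2 ≤ k
  lt : k < v
  size : ∀ i, (B i).card = k
  pair : ∀ x y : Fin v, x ≠ y →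
    (Finset.univ.filter (fun i => x ∈ B i ∧ y ∈ B i)).card = lam

/-- counting flags (as in `Pool.Agent.Results.MP_c38931_co.DensityZero.repl`) -/
theorem repl (v k lam : ℕ) (hv : 2 ≤ v) (hlam : 1 ≤ lam) (B : Fin v → Finset (Fin v))
    (hk : ∀ i, (B i).card = k)
    (hp : ∀ x y : Fin v, x ≠ y →
      (Finset.univ.filter (fun i => x ∈ B i ∧ y ∈ B i)).card = lam) :
    (∀ x, (Finset.univ.filter (fun i => x ∈ B i)).card = k) ∧ k * k = lam * (v - 1) + k := by
  classical
  have h1 : ∀ x, (Finset.univ.filter (fun i => x ∈ B i)).card * k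
      = (Finset.univ.filter (fun i => x ∈ B i)).card + lam * (v - 1) := by
    intro x
    have e1 : ∑ y : Fin v, (Finset.univ.filter (fun i => x ∈ B i ∧ y ∈ B i)).card
        = (Finset.univ.filter (fun i => x ∈ B i)).card * k := by
      simp_rw [Finset.card_filter]
      rw [Finset.sum_comm, Finset.sum_mul]
      refine Finset.sum_congr rfl fun i _ => ?_
      by_cases hx : x ∈ B i
      · simp [hx, hk i]
      · simp [hx]
    rw [← e1, ← Finset.add_sum_erase _ _ (Finset.mem_univ x)]
    congr 1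
    · simp
    · rw [Finset.sum_congr rfl (g := fun _ => lam)]
      · simp [Finset.card_erase_of_mem, mul_comm]
      · intro y hy
        exact hp x y (Finset.ne_of_mem_erase hy).symm
  have hpos : 1 ≤ lam * (v - 1) := by
    have : 1 ≤ v - 1 := by omega
    exact Nat.mul_pos hlam this
  set r : Fin v → ℕ := fun x => (Finset.univ.filter (fun i => x ∈ B i)).card with hr
  have hk2 : 2 ≤ k := by
    by_contra hcon
    have h2 := h1 ⟨0, by omega⟩
    interval_cases k <;> simp at h2 <;> omega
  have hconst : ∀ x y, r x = r y := by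
    intro x y
    have hx := h1 x
    have hy := h1 y
    obtain ⟨k', rfl⟩ : ∃ k', k = k' + 1 := ⟨k - 1, by omega⟩
    have hx' : r x * k' = lam * (v - 1) := by
      have : r x * (k' + 1) = r x + lam * (v - 1) := hx
      rw [mul_add, mul_one] at this; omega
    have hy' : r y * k' = lam * (v - 1) := by
      have : r y * (k' + 1) = r y + lam * (v - 1) := hy
      rw [mul_add, mul_one] at this; omega
    have : r x * k' = r y * k' := by rw [hx', hy']
    exact Nat.eq_of_mul_eq_mul_right (by omega) this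
  have hsum : ∑ x, r x = v * k := by
    simp only [hr]
    simp_rw [Finset.card_filter]
    rw [Finset.sum_comm]
    rw [Finset.sum_congr rfl (g := fun _ => k)]
    · simp
    · intro i _
      rw [← hk i]; simp
  have hrk : ∀ x, r x = k := by
    intro x
    have : ∑ y, r y = v * r x := by
      rw [Finset.sum_congr rfl (g := fun _ => r x) (fun y _ => hconst y x)]; simp
    rw [this] at hsum
    exact Nat.eq_of_mul_eq_mul_left (by omega) hsum
  refine ⟨hrk, ?_⟩
  have h2 := h1 ⟨0, by omega⟩
  have h3 := hrk ⟨0, by omega⟩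
  simp only [hr] at h3
  rw [h3] at h2
  omega

/-- incidence matrix -/
def inc {v : ℕ} (B : Fin v → Finset (Fin v)) : Matrix (Fin v) (Fin v) ℚ :=
  fun i x => if x ∈ B i then 1 else 0

section
variable {v k lam : ℕ} {B : Fin v → Finset (Fin v)}

lemma inc_tmul (hv : 2 ≤ v) (hlam : 1 ≤ lam)
    (hk : ∀ i, (B i).card = k)
    (hp : ∀ x y : Fin v, x ≠ y →
      (Finset.univ.filter (fun i => x ∈ B i ∧ y ∈ B i)).card = lam) :
    (inc B)ᵀ * inc B = ((k : ℚ) - lam) • (1 : Matrix (Fin v) (Fin v) ℚ) +
      (lam : ℚ) • (Matrix.of fun _ _ => (1 : ℚ)) := by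
  obtain ⟨hr, -⟩ := repl v k lam hv hlam B hk hp
  ext x y
  have h1 : ((inc B)ᵀ * inc B) x y =
      ((Finset.univ.filter (fun i => x ∈ B i ∧ y ∈ B i)).card : ℚ) := by
    rw [Matrix.mul_apply]
    have h2 : ∀ i, (inc B)ᵀ x i * inc B i y = if (x ∈ B i ∧ y ∈ B i) then 1 else 0 := by
      intro i
      simp only [inc, Matrix.transpose_apply]
      split_ifs <;> simp_all
    rw [Finset.sum_congr rfl (fun h _ => h2 h), Finset.sum_boole]
  rw [h1]
  simp only [Matrix.add_apply, Matrix.smul_apply, smul_eq_mul, Matrix.of_apply, mul_one]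
  by_cases hxy : x = y
  · subst hxy
    rw [Matrix.one_apply_eq]
    have : (Finset.univ.filter (fun i => x ∈ B i ∧ x ∈ B i)) =
      (Finset.univ.filter (fun i => x ∈ B i)) := by simp
    rw [this, hr x]
    ring
  · rw [Matrix.one_apply_ne hxy, hp x y hxy]
    ring

lemma det_nJ (n : ℚ) (l : ℚ) (hn : 0 < n) (hl : 0 ≤ l) :
    (n • (1 : Matrix (Fin v) (Fin v) ℚ) + l • (Matrix.of fun _ _ => (1 : ℚ))).det ≠ 0 := by
  have h3 : (n • (1 : Matrix (Fin v) (Fin v) ℚ) + l • (Matrix.of fun _ _ => (1 : ℚ))) =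
      n • ((1 : Matrix (Fin v) (Fin v) ℚ) +
      replicateCol Unit (fun _ => (l / n)) * replicateRow Unit (fun _ => (1 : ℚ))) := by
    ext i j
    simp only [Matrix.add_apply, Matrix.smul_apply, smul_eq_mul, Matrix.mul_apply,
      Matrix.replicateCol_apply, Matrix.replicateRow_apply, Finset.univ_unique, Finset.sum_const,
      Finset.card_singleton, one_smul, mul_one, Matrix.of_apply]
    field_simp
  rw [h3, Matrix.det_smul, Matrix.det_one_add_replicateCol_mul_replicateRow]
  have h4 : (fun _ : Fin v => (1 : ℚ)) ⬝ᵥ (fun _ => (l / n)) = v * (l / n) := by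
    simp [dotProduct]
  rw [h4]
  positivity

/-- facts on symmetric designs -/
lemma design_facts (hv : 2 ≤ v) (hlam : 1 ≤ lam) (hkv : k < v)
    (hk : ∀ i, (B i).card = k)
    (hp : ∀ x y : Fin v, x ≠ y →
      (Finset.univ.filter (fun i => x ∈ B i ∧ y ∈ B i)).card = lam) :
    lam < k ∧ (inc B).det ≠ 0 ∧ ∀ i j, i ≠ j → (B i ∩ B j).card = lam := by
  obtain ⟨hr, hcount⟩ := repl v k lam hv hlam B hk hp
  have hk1 : 1 ≤ k := by
    by_contra h
    have h0 : k = 0 := by omega
    subst h0
    have : 1 ≤ lam * (v - 1) := Nat.mul_pos hlam (by omega)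
    omega
  have hlk : lam < k := by
    by_contra h
    push Not at h
    have h1 : k * (v - 1) ≤ lam * (v - 1) := Nat.mul_le_mul_right _ h
    have h2 : k * k ≤ k * (v - 1) := Nat.mul_le_mul_left _ (by omega)
    omega
  have hn : (0 : ℚ) < (k : ℚ) - lam := by
    have : (lam : ℚ) < k := by exact_mod_cast hlk
    linarith
  have hT := inc_tmul hv hlam hk hp
  have hdet : (inc B).det ≠ 0 := by
    intro h
    have h1 := congrArg Matrix.det hT
    rw [Matrix.det_mul, h, mul_zero] at h1
    exact det_nJ _ _ hn (by positivity) h1.symm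
  refine ⟨hlk, hdet, ?_⟩
  -- M J = k J and J M = k J
  set M := inc B with hM
  set J : Matrix (Fin v) (Fin v) ℚ := Matrix.of fun _ _ => (1 : ℚ) with hJ
  have hMJ : M * J = (k : ℚ) • J := by
    ext i x
    simp only [Matrix.mul_apply, hJ, Matrix.of_apply, mul_one, Matrix.smul_apply, smul_eq_mul, hM,
      inc, Finset.sum_boole]
    rw [← hk i]
    congr 2
    ext y; simp
  have hJM : J * M = (k : ℚ) • J := by
    ext i x
    simp only [Matrix.mul_apply, hJ, Matrix.of_apply, one_mul, mul_one, Matrix.smul_apply,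
      smul_eq_mul, hM, inc, Finset.sum_boole]
    exact_mod_cast hr x
  have hunit : IsUnit M.det := isUnit_iff_ne_zero.2 hdet
  have h1 : (M * Mᵀ - (((k : ℚ) - lam) • (1 : Matrix (Fin v) (Fin v) ℚ) + (lam : ℚ) • J)) * M = 0 := by
    rw [Matrix.sub_mul, Matrix.mul_assoc, hT, Matrix.mul_add, Matrix.add_mul]
    simp only [Matrix.mul_smul, Matrix.smul_mul, Matrix.mul_one, Matrix.one_mul, hMJ, hJM]
    abel
  have h2 : M * Mᵀ = ((k : ℚ) - lam) • (1 : Matrix (Fin v) (Fin v) ℚ) + (lam : ℚ) • J := by
    have h3 := congrArg (fun A => A * M⁻¹) h1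
    simp only [Matrix.zero_mul] at h3
    rw [Matrix.mul_assoc, Matrix.mul_nonsing_inv _ hunit, Matrix.mul_one] at h3
    exact sub_eq_zero.1 h3
  intro i j hij
  have h3 := congrFun (congrFun h2 i) j
  simp only [Matrix.add_apply, Matrix.smul_apply, smul_eq_mul, hJ, Matrix.of_apply, mul_one,
    Matrix.one_apply_ne hij, mul_zero, zero_add] at h3
  rw [Matrix.mul_apply] at h3
  have h4 : ∀ x, M i x * Mᵀ x j = if (x ∈ B i ∧ x ∈ B j) then 1 else 0 := by
    intro x
    simp only [hM, inc, Matrix.transpose_apply]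
    split_ifs <;> simp_all
  rw [Finset.sum_congr rfl (fun h _ => h4 h), Finset.sum_boole] at h3
  have h5 : (univ.filter (fun x => x ∈ B i ∧ x ∈ B j)) = B i ∩ B j := by
    ext x; simp
  rw [h5] at h3
  exact_mod_cast h3

namespace Des

variable (h : Des v k lam B) (hlam : 1 ≤ lam)
include h hlam

theorem v2 : 2 ≤ v := by
  have := h.two_le
  have := h.lt
  omega

theorem rep (x : Fin v) : (univ.filter (fun i => x ∈ B i)).card = k :=
  (repl v k lam (h.v2 hlam) hlam B h.size h.pair).1 x

theorem count : k * k = lam * (v - 1) + k :=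
  (repl v k lam (h.v2 hlam) hlam B h.size h.pair).2

theorem lam_lt : lam < k := (design_facts (h.v2 hlam) hlam h.lt h.size h.pair).1

theorem inter {i j : Fin v} (hij : i ≠ j) : (B i ∩ B j).card = lam :=
  (design_facts (h.v2 hlam) hlam h.lt h.size h.pair).2.2 i j hij

theorem inj : Function.Injective B := by
  intro i j hij
  by_contra hne
  have h1 := h.inter hlam hne
  rw [← hij, inter_self, h.size] at h1
  have := h.lam_lt hlam
  omega

/-- `lam v ≤ k ^ 2` -/
theorem lam_v : lam * v ≤ k * k := by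
  have h1 := h.count hlam
  have h2 := h.v2 hlam
  have h3 := h.lam_lt hlam
  obtain ⟨w, rfl⟩ : ∃ w, v = w + 1 := ⟨v - 1, by omega⟩
  simp only [Nat.add_sub_cancel] at h1
  nlinarith

end Des

/-- `σ` maps blocks to blocks -/
def Aut (B : Fin v → Finset (Fin v)) (σ : Equiv.Perm (Fin v)) : Prop :=
  ∀ i, ∃ j, (B i).image σ = B j

/-- the fixed points -/
def fixP (σ : Equiv.Perm (Fin v)) : Finset (Fin v) := univ.filter fun x => σ x = x

/-- the fixed blocks -/
def fixB (B : Fin v → Finset (Fin v)) (σ : Equiv.Perm (Fin v)) : Finset (Fin v) :=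
  univ.filter fun i => (B i).image σ = B i

theorem mem_fixP {σ : Equiv.Perm (Fin v)} {x : Fin v} : x ∈ fixP σ ↔ σ x = x := by simp [fixP]

theorem mem_fixB {σ : Equiv.Perm (Fin v)} {i : Fin v} : i ∈ fixB B σ ↔ (B i).image σ = B i := by
  simp [fixB]

theorem map_mem {σ : Equiv.Perm (Fin v)} {i : Fin v} (hi : i ∈ fixB B σ) {x : Fin v}
    (hx : x ∈ B i) : σ x ∈ B i := by
  rw [← mem_fixB.1 hi]
  exact mem_image_of_mem _ hx

variable (h : Des v k lam B) (hlam : 1 ≤ lam)
include h hlam

/-- a moved point lies on at most `lam` fixed blocks -/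
theorem fixB_through {σ : Equiv.Perm (Fin v)} {x : Fin v} (hx : σ x ≠ x) :
    ((fixB B σ).filter fun i => x ∈ B i).card ≤ lam := by
  rw [← h.pair x (σ x) (Ne.symm hx)]
  refine card_le_card fun i hi => ?_
  rw [mem_filter] at hi
  simp only [mem_filter, mem_univ, true_and]
  exact ⟨hi.2, map_mem hi.1 hi.2⟩

/-- a moved block has at most `lam` fixed points -/
theorem fixP_on {σ : Equiv.Perm (Fin v)} (hσ : Aut B σ) {i : Fin v} (hi : i ∉ fixB B σ) :
    (B i ∩ fixP σ).card ≤ lam := by
  obtain ⟨j, hj⟩ := hσ i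
  have hij : i ≠ j := by
    rintro rfl
    exact hi (mem_fixB.2 hj)
  rw [← h.inter hlam hij]
  refine card_le_card fun x hx => ?_
  rw [mem_inter] at hx ⊢
  refine ⟨hx.1, ?_⟩
  rw [← hj, mem_image]
  exact ⟨x, hx.1, mem_fixP.1 hx.2⟩

theorem exists_moved {σ : Equiv.Perm (Fin v)} (hσ1 : σ ≠ 1) : ∃ i, i ∉ fixB B σ := by
  by_contra hcon
  push Not at hcon
  apply hσ1
  ext x
  by_contra hx
  have hx' : σ x ≠ x := fun h => hx (by rw [h]; rfl)
  have h1 := fixB_through h hlam hx'
  have h2 : ((fixB B σ).filter fun i => x ∈ B i) = univ.filter fun i => x ∈ B i := by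
    ext i
    simp [hcon i]
  rw [h2, h.rep hlam] at h1
  have := h.lam_lt hlam
  omega

theorem fixB_le {σ : Equiv.Perm (Fin v)} (hσ : Aut B σ) (hσ1 : σ ≠ 1) :
    (fixB B σ).card ≤ 2 * k := by
  obtain ⟨d, hd⟩ := exists_moved h hlam hσ1
  have e1 : ∑ i ∈ fixB B σ, (B i ∩ B d).card = lam * (fixB B σ).card := by
    rw [sum_congr rfl (g := fun _ => lam), sum_const, smul_eq_mul, mul_comm]
    intro i hi
    exact h.inter hlam (fun e => hd (e ▸ hi))
  have e2 : ∑ i ∈ fixB B σ, (B i ∩ B d).card =
      ∑ x ∈ B d, ((fixB B σ).filter fun i => x ∈ B i).card := by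
    have : ∀ i, (B i ∩ B d).card = ∑ x ∈ B d, if x ∈ B i then 1 else 0 := by
      intro i
      rw [← card_filter]
      congr 1
      ext x
      simp [and_comm]
    simp_rw [this, card_filter]
    rw [sum_comm]
  have e3 : ∑ x ∈ B d, ((fixB B σ).filter fun i => x ∈ B i).card ≤
      ∑ x ∈ B d, (lam + if x ∈ fixP σ then k else 0) := by
    refine sum_le_sum fun x _ => ?_
    by_cases hx : σ x = x
    · rw [if_pos (mem_fixP.2 hx)]
      have : ((fixB B σ).filter fun i => x ∈ B i).card ≤ k := by
        rw [← h.rep hlam x]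
        exact card_le_card (filter_subset_filter _ (subset_univ _))
      omega
    · have := fixB_through h hlam hx
      omega
  have e4 : ∑ x ∈ B d, (lam + if x ∈ fixP σ then k else 0) = k * lam + (B d ∩ fixP σ).card * k := by
    rw [sum_add_distrib, sum_const, h.size, smul_eq_mul, ← sum_filter, sum_const, smul_eq_mul,
      filter_mem_eq_inter]
  have e5 := fixP_on h hlam hσ hd
  have e6 : lam * (fixB B σ).card ≤ k * lam + lam * k := by
    calc lam * (fixB B σ).card ≤ k * lam + (B d ∩ fixP σ).card * k := by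
          rw [← e1, e2, ← e4]; exact e3
      _ ≤ k * lam + lam * k := by gcongr
  have e7 : lam * (fixB B σ).card ≤ lam * (2 * k) := by linarith
  exact Nat.le_of_mul_le_mul_left e7 hlam

theorem fixP_le {σ : Equiv.Perm (Fin v)} (hσ : Aut B σ) (hσ1 : σ ≠ 1) :
    (fixP σ).card ≤ 2 * k := by
  obtain ⟨z, hz⟩ : ∃ z, σ z ≠ z := by
    by_contra hcon
    push Not at hcon
    exact hσ1 (Equiv.ext hcon)
  have e1 : ∑ x ∈ fixP σ, (univ.filter fun i => x ∈ B i ∧ z ∈ B i).card =
      lam * (fixP σ).card := by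
    rw [sum_congr rfl (g := fun _ => lam), sum_const, smul_eq_mul, mul_comm]
    intro x hx
    refine h.pair x z ?_
    rintro rfl
    exact hz (mem_fixP.1 hx)
  have e2 : ∑ x ∈ fixP σ, (univ.filter fun i => x ∈ B i ∧ z ∈ B i).card =
      ∑ i ∈ univ.filter (fun i => z ∈ B i), (B i ∩ fixP σ).card := by
    have h1 : ∀ x, (univ.filter fun i => x ∈ B i ∧ z ∈ B i).card =
        ∑ i ∈ univ.filter (fun i => z ∈ B i), if x ∈ B i then 1 else 0 := by
      intro x
      rw [← card_filter, filter_filter]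
      congr 1
      ext i
      simp [and_comm]
    have h2 : ∀ i, (B i ∩ fixP σ).card = ∑ x ∈ fixP σ, if x ∈ B i then 1 else 0 := by
      intro i
      rw [← card_filter]
      congr 1
      ext x
      simp [and_comm]
    simp_rw [h1, h2]
    rw [sum_comm]
  have e3 : ∑ i ∈ univ.filter (fun i => z ∈ B i), (B i ∩ fixP σ).card ≤
      ∑ i ∈ univ.filter (fun i => z ∈ B i), (lam + if i ∈ fixB B σ then k else 0) := by
    refine sum_le_sum fun i _ => ?_
    by_cases hi : i ∈ fixB B σ
    · rw [if_pos hi]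
      have : (B i ∩ fixP σ).card ≤ k := by
        rw [← h.size i]
        exact card_le_card inter_subset_left
      omega
    · have := fixP_on h hlam hσ hi
      omega
  have e4 : ∑ i ∈ univ.filter (fun i => z ∈ B i), (lam + if i ∈ fixB B σ then k else 0) =
      k * lam + ((fixB B σ).filter fun i => z ∈ B i).card * k := by
    rw [sum_add_distrib, sum_const, h.rep hlam, smul_eq_mul, ← sum_filter, sum_const, smul_eq_mul,
      filter_filter]
    congr 3
    ext i
    simp [and_comm]
  have e5 := fixB_through h hlam hz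
  have e6 : lam * (fixP σ).card ≤ k * lam + lam * k := by
    calc lam * (fixP σ).card ≤ k * lam + ((fixB B σ).filter fun i => z ∈ B i).card * k := by
          rw [← e1, e2, ← e4]; exact e3
      _ ≤ k * lam + lam * k := by gcongr
  have e7 : lam * (fixP σ).card ≤ lam * (2 * k) := by linarith
  exact Nat.le_of_mul_le_mul_left e7 hlam

end

end Pool.Agent.N345.Sym
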