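import Pool.Agent.N345.Sym.Elation

set_option autoImplicit false
set_option linter.unusedSectionVars false

/-!
# Symmetric designs: groups of axial automorphisms
-/

namespace Pool.Agent.N345.Sym

open Finset

/-- a group of permutations acting on `M` such that only `1` has fixed points in `M` -/
theorem card_dvd_free {v : ℕ} (H : Subgroup (Equiv.Perm (Fin v))) (M : Finset (Fin v))
    (h1 : ∀ σ ∈ H, ∀ x ∈ M, σ x ∈ M) (h2 : ∀ σ ∈ H, σ ≠ 1 → ∀ x ∈ M, σ x ≠ x) :
    Nat.card H ∣ M.card := by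
  classical
  let S : SubMulAction H (Fin v) :=
    { carrier := M
      smul_mem' := fun g x hx => h1 g.1 g.2 x hx }
  have e1 : Nat.card S = M.card := by
    have : Nat.card S = Nat.card (M : Set (Fin v)) := rfl
    rw [this]
    simp
  have e2 : ∀ x : S, MulAction.stabilizer H x = ⊥ := by
    intro x
    rw [eq_bot_iff]
    intro g hg
    rw [MulAction.mem_stabilizer_iff] at hg
    rw [Subgroup.mem_bot]
    by_contra hne
    have h3 : (g : Equiv.Perm (Fin v)) ≠ 1 := by
      intro e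
      exact hne (Subtype.ext e)
    refine h2 g.1 g.2 h3 x.1 x.2 ?_
    have := congrArg Subtype.val hg
    exact this
  rw [← e1, Nat.card_congr (MulAction.selfEquivSigmaOrbitsQuotientStabilizer H S), Nat.card_sigma]
  refine Finset.dvd_sum fun ω _ => ?_
  rw [e2]
  have : Nat.card (H ⧸ (⊥ : Subgroup H)) = Nat.card H := by
    have := Subgroup.index_bot (G := H)
    exact this
  rw [this]

section
variable {v k lam : ℕ} {B : Fin v → Finset (Fin v)} {b : Fin v}
variable (h : Des v k lam B) (hlam : 1 ≤ lam)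
include h hlam

/-- the fixed points of a nonidentity element with the centre `c` -/
theorem fix_iff (hlam2 : 2 ≤ lam) (hk : 2 * lam ^ 5 + lam < k) {σ : Equiv.Perm (Fin v)}
    (a : Ax B b σ) {c : Fin v} (hc : Cen B σ c) (x : Fin v) : σ x = x ↔ x ∈ B b ∨ x = c := by
  obtain ⟨c', h1, h2, -⟩ := axial h hlam hlam2 hk a
  have hk2 : lam * (lam + 2) < k := by
    have h1 : lam ^ 2 ≤ lam ^ 5 := Nat.pow_le_pow_right hlam (by norm_num)
    have h2 : lam * 2 ^ 4 ≤ lam * lam ^ 4 := Nat.mul_le_mul_left _ (Nat.pow_le_pow_left hlam2 4)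
    have h3 : lam * lam ^ 4 = lam ^ 5 := by ring
    nlinarith
  rw [cen_unique h hlam a hk2 hc h1]
  exact h2 x

/-- a group of automorphisms with axis `b` and centre `c` -/
theorem group_dvd (hlam2 : 2 ≤ lam) (hk : 2 * lam ^ 5 + lam < k) (H : Subgroup (Equiv.Perm (Fin v)))
    (hH : ∀ σ ∈ H, Aut B σ ∧ ∀ x ∈ B b, σ x = x) {c : Fin v} (hc : ∀ σ ∈ H, Cen B σ c) :
    Nat.card H ∣ lam - 1 ∧ (c ∈ B b → Nat.card H ∣ k - 1) ∧ (c ∉ B b → Nat.card H ∣ k - 2) := by
  classical
  have hk2 := h.two_le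
  have hll := h.lam_lt hlam
  have hpow : 2 * lam ^ 5 = 2 * lam ^ 3 * lam ^ 2 := by ring
  have hpow3 : 8 ≤ lam ^ 3 := by
    have := Nat.pow_le_pow_left hlam2 3
    omega
  -- a second block through `c`
  obtain ⟨A, hA⟩ : ((univ.filter fun i => c ∈ B i).erase b).Nonempty := by
    rw [← card_pos]
    have h1 := pred_card_le_card_erase (s := univ.filter fun i => c ∈ B i) (a := b)
    rw [h.rep hlam] at h1
    omega
  simp only [mem_erase, mem_filter, mem_univ, true_and] at hA
  -- a third one which meets the axis and `A` in `c` at most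
  obtain ⟨A', hA'1, hA'2, hA'3, hA'4⟩ : ∃ A', c ∈ B A' ∧ A' ≠ b ∧ A' ≠ A ∧
      ∀ y ∈ B b ∩ B A, y ≠ c → y ∉ B A' := by
    by_contra hcon
    push Not at hcon
    have hcov : (univ.filter fun i => c ∈ B i) ⊆ insert b (insert A
        (((B b ∩ B A).erase c).biUnion fun y => univ.filter fun i => c ∈ B i ∧ y ∈ B i)) := by
      intro i hi
      simp only [mem_filter, mem_univ, true_and] at hi
      rw [mem_insert, mem_insert, mem_biUnion]
      by_cases hib : i = b
      · exact Or.inl hib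
      · by_cases hiA : i = A
        · exact Or.inr (Or.inl hiA)
        · obtain ⟨y, hy, hyc, hyi⟩ := hcon i hi hib hiA
          refine Or.inr (Or.inr ⟨y, mem_erase.2 ⟨hyc, hy⟩, ?_⟩)
          simp [hi, hyi]
    have h1 := card_le_card hcov
    rw [h.rep hlam] at h1
    have h2 : (((B b ∩ B A).erase c).biUnion fun y =>
        univ.filter fun i => c ∈ B i ∧ y ∈ B i).card ≤ lam * lam := by
      refine card_biUnion_le.trans ?_
      calc ∑ y ∈ (B b ∩ B A).erase c, (univ.filter fun i => c ∈ B i ∧ y ∈ B i).card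
          ≤ ∑ y ∈ (B b ∩ B A).erase c, lam := by
            refine sum_le_sum fun y hy => ?_
            rw [h.pair c y (mem_erase.1 hy).1.symm]
        _ ≤ lam * lam := by
            rw [sum_const, smul_eq_mul]
            refine Nat.mul_le_mul_right _ ((card_le_card (erase_subset _ _)).trans ?_)
            rw [h.inter hlam hA.1.symm]
    have h3 := card_insert_le b (insert A (((B b ∩ B A).erase c).biUnion fun y =>
        univ.filter fun i => c ∈ B i ∧ y ∈ B i))
    have h4 := card_insert_le A (((B b ∩ B A).erase c).biUnion fun y =>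
        univ.filter fun i => c ∈ B i ∧ y ∈ B i)
    have h5 : lam * lam = lam ^ 2 := by ring
    have h6 : 4 ≤ lam ^ 2 := by
      have := Nat.pow_le_pow_left hlam2 2
      omega
    have h7 : 16 * lam ^ 2 ≤ 2 * lam ^ 3 * lam ^ 2 := Nat.mul_le_mul_right _ (by omega)
    omega
  -- `H` acts semiregularly on the other points of the two blocks
  have d1 : Nat.card H ∣ ((B A ∩ B A').erase c).card := by
    refine card_dvd_free H _ ?_ ?_
    · intro σ hσ x hx
      rw [mem_erase, mem_inter] at hx ⊢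
      refine ⟨?_, map_mem (hc σ hσ A hA.2) hx.2.1, map_mem (hc σ hσ A' hA'1) hx.2.2⟩
      intro e
      have h1 := (hc σ hσ).fixed h hlam
      exact hx.1 (σ.injective (by rw [e, h1]))
    · intro σ hσ hne x hx he
      rw [mem_erase, mem_inter] at hx
      have a : Ax B b σ := ⟨(hH σ hσ).1, hne, (hH σ hσ).2⟩
      rcases (fix_iff h hlam hlam2 hk a (hc σ hσ) x).1 he with h1 | h1
      · exact hA'4 x (mem_inter.2 ⟨h1, hx.2.1⟩) hx.1 hx.2.2
      · exact hx.1 h1
  rw [card_erase_of_mem (mem_inter.2 ⟨hA.2, hA'1⟩), h.inter hlam hA'3.symm] at d1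
  -- and on the points of `A` off the axis
  have d2 : Nat.card H ∣ ((B A \ B b).erase c).card := by
    refine card_dvd_free H _ ?_ ?_
    · intro σ hσ x hx
      rw [mem_erase, mem_sdiff] at hx ⊢
      refine ⟨?_, map_mem (hc σ hσ A hA.2) hx.2.1, ?_⟩
      · intro e
        have h1 := (hc σ hσ).fixed h hlam
        exact hx.1 (σ.injective (by rw [e, h1]))
      · intro e
        exact hx.2.2 (by rw [← σ.injective ((hH σ hσ).2 _ e)]; exact e)
    · intro σ hσ hne x hx he
      rw [mem_erase, mem_sdiff] at hx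
      have a : Ax B b σ := ⟨(hH σ hσ).1, hne, (hH σ hσ).2⟩
      rcases (fix_iff h hlam hlam2 hk a (hc σ hσ) x).1 he with h1 | h1
      · exact hx.2.2 h1
      · exact hx.1 h1
  have h3 := card_inter_add_card_sdiff (B A) (B b)
  rw [h.inter hlam hA.1, h.size] at h3
  refine ⟨d1, fun hcb => ?_, fun hcb => ?_⟩
  · rw [erase_eq_of_notMem (fun e => (mem_sdiff.1 e).2 hcb)] at d2
    have h4 := Dvd.dvd.add d2 d1
    have h5 : (B A \ B b).card + (lam - 1) = k - 1 := by omega
    rwa [h5] at h4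
  · rw [card_erase_of_mem (mem_sdiff.2 ⟨hA.2, hcb⟩)] at d2
    have h4 := Dvd.dvd.add d2 d1
    have h5 : (B A \ B b).card - 1 + (lam - 1) = k - 2 := by omega
    rwa [h5] at h4

/-- primes dividing the order of a group of axial automorphisms -/
theorem prime_dvd (hlam2 : 2 ≤ lam) (hk : 2 * lam ^ 5 + lam < k) (H : Subgroup (Equiv.Perm (Fin v)))
    (hH : ∀ σ ∈ H, Aut B σ ∧ ∀ x ∈ B b, σ x = x) {p : ℕ} (hp : p.Prime) (hpH : p ∣ Nat.card H) :
    p ∣ lam - 1 := by
  have : Fact p.Prime := ⟨hp⟩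
  obtain ⟨g, hg⟩ := exists_prime_orderOf_dvd_card' p hpH
  have hg1 : (g : Equiv.Perm (Fin v)) ≠ 1 := by
    intro e
    have : g = 1 := Subtype.ext e
    rw [this, orderOf_one] at hg
    exact hp.one_lt.ne hg
  have a : Ax B b (g : Equiv.Perm (Fin v)) := ⟨(hH g.1 g.2).1, hg1, (hH g.1 g.2).2⟩
  obtain ⟨c, hc, -, -⟩ := axial h hlam hlam2 hk a
  have hle : Subgroup.zpowers (g : Equiv.Perm (Fin v)) ≤ H := by
    rw [Subgroup.zpowers_le]
    exact g.2
  have hcen : ∀ σ ∈ Subgroup.zpowers (g : Equiv.Perm (Fin v)), Cen B σ c := by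
    intro σ hσ i hi
    obtain ⟨m, rfl⟩ := hσ
    have hfix : i ∈ fixB B (g : Equiv.Perm (Fin v)) := hc i hi
    rw [mem_fixB] at hfix
    -- the stabilizer of a finset
    let T : Subgroup (Equiv.Perm (Fin v)) :=
      { carrier := {τ | (B i).image τ = B i}
        mul_mem' := by
          intro s t hs ht
          simp only [Set.mem_ofPred_eq] at hs ht ⊢
          rw [Equiv.Perm.coe_mul, ← image_image, ht, hs]
        one_mem' := by simp
        inv_mem' := by
          intro s hs
          simp only [Set.mem_ofPred_eq] at hs ⊢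
          conv_lhs => rw [← hs]
          rw [image_image]
          ext x
          simp }
    have h1 : (g : Equiv.Perm (Fin v)) ∈ T := hfix
    have h2 := T.zpow_mem h1 m
    exact mem_fixB.2 h2
  have h3 := (group_dvd h hlam hlam2 hk (Subgroup.zpowers (g : Equiv.Perm (Fin v)))
    (fun σ hσ => hH σ (hle hσ)) hcen).1
  rw [Nat.card_zpowers] at h3
  have h4 : orderOf (g : Equiv.Perm (Fin v)) = p := by
    rw [← hg]
    exact (orderOf_injective H.subtype H.subtype_injective g)
  rwa [h4] at h3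

/-- the order of a group of axial automorphisms -/
theorem group_le (hlam2 : 2 ≤ lam) (hk : 10 * lam ^ 5 < k) (H : Subgroup (Equiv.Perm (Fin v)))
    (hH : ∀ σ ∈ H, Aut B σ ∧ ∀ x ∈ B b, σ x = x) : Nat.card H ≤ lam - 1 := by
  have hk5 : 2 * lam ^ 5 + lam < k := by
    have : lam ≤ lam ^ 5 := Nat.le_self_pow (by norm_num) lam
    omega
  have h1 : Nat.card H ≤ lam := by
    by_contra hcon
    push Not at hcon
    have h2 := com_le h hlam H (fun σ hσ => (hH σ hσ).1) hcon
    have h3 : k ≤ (com H).card := by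
      rw [← h.size b]
      refine card_le_card fun x hx => ?_
      rw [mem_com]
      exact fun σ hσ => (hH σ hσ).2 x hx
    have h3' : (k : ℝ) ≤ (com H).card := by exact_mod_cast h3
    have hl2 : (2 : ℝ) ≤ lam := by exact_mod_cast hlam2
    have hk' : 10 * (lam : ℝ) ^ 5 < k := by exact_mod_cast hk
    have hl5 : 0 < (lam : ℝ) ^ 5 := by positivity
    have hk0 : (0 : ℝ) < k := by linarith
    set s := Real.sqrt k with hs
    have hs2 : s * s = k := Real.mul_self_sqrt hk0.le
    have hs0 : 0 < s := Real.sqrt_pos.2 hk0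
    set t := Real.sqrt (2 * lam + 1) with ht
    have ht2 : t ^ 2 = 2 * lam + 1 := Real.sq_sqrt (by positivity)
    have ht0 : 0 ≤ t := Real.sqrt_nonneg _
    have h4 : ((lam : ℝ) - 1) * s ≤ 2 * lam ^ 2 * t := by
      have : s * (((lam : ℝ) - 1) * s) ≤ s * (2 * lam ^ 2 * t) := by
        calc s * (((lam : ℝ) - 1) * s) = lam * k - k := by
              calc s * (((lam : ℝ) - 1) * s) = (lam - 1) * (s * s) := by ring
                _ = _ := by rw [hs2]; ring
          _ ≤ lam * (com H).card - k := by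
              have := mul_le_mul_of_nonneg_left h3' (by linarith : (0 : ℝ) ≤ lam)
              linarith
          _ ≤ s * (2 * lam ^ 2 * t) := by linarith
      exact le_of_mul_le_mul_left this hs0
    have h5 : (((lam : ℝ) - 1) * s) ^ 2 ≤ (2 * lam ^ 2 * t) ^ 2 :=
      pow_le_pow_left₀ (mul_nonneg (by linarith) hs0.le) h4 2
    have h6 : (((lam : ℝ) - 1) * s) ^ 2 = (lam - 1) ^ 2 * k := by
      calc (((lam : ℝ) - 1) * s) ^ 2 = (lam - 1) ^ 2 * (s * s) := by ring
        _ = _ := by rw [hs2]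
    have h7 : (2 * (lam : ℝ) ^ 2 * t) ^ 2 = 4 * lam ^ 4 * (2 * lam + 1) := by
      calc (2 * (lam : ℝ) ^ 2 * t) ^ 2 = 4 * lam ^ 4 * t ^ 2 := by ring
        _ = _ := by rw [ht2]
    rw [h6, h7] at h5
    have h8 : (lam - 1 : ℝ) ^ 2 * (10 * lam ^ 5) < 4 * lam ^ 4 * (2 * lam + 1) := by
      refine lt_of_lt_of_le ?_ h5
      have : 0 < (lam - 1 : ℝ) ^ 2 := by
        have : (0 : ℝ) < lam - 1 := by linarith
        positivity
      exact mul_lt_mul_of_pos_left hk' this
    have hl4 : 0 < (lam : ℝ) ^ 4 := by positivity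
    have h9 : (lam : ℝ) ^ 4 * (10 * (lam : ℝ) * ((lam : ℝ) - 1) ^ 2) <
        (lam : ℝ) ^ 4 * (4 * (2 * (lam : ℝ) + 1)) := by
      have g1 : (lam : ℝ) ^ 4 * (10 * (lam : ℝ) * ((lam : ℝ) - 1) ^ 2) =
          ((lam : ℝ) - 1) ^ 2 * (10 * (lam : ℝ) ^ 5) := by ring
      have g2 : (lam : ℝ) ^ 4 * (4 * (2 * (lam : ℝ) + 1)) = 4 * (lam : ℝ) ^ 4 * (2 * lam + 1) := by
        ring
      rw [g1, g2]
      exact h8
    have h10 := lt_of_mul_lt_mul_left h9 hl4.le
    have h11 : (1 : ℝ) ≤ (lam - 1) ^ 2 := by nlinarith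
    have h12 : 10 * (lam : ℝ) * 1 ≤ 10 * lam * (lam - 1) ^ 2 := by gcongr
    linarith
  rcases Nat.lt_or_ge (Nat.card H) lam with h2 | h2
  · omega
  · exfalso
    have h3 : Nat.card H = lam := by omega
    obtain ⟨p, hp, hpl⟩ := Nat.exists_prime_and_dvd (by omega : lam ≠ 1)
    have h4 := prime_dvd h hlam hlam2 hk5 H hH hp (by rw [h3]; exact hpl)
    have h5 : p ∣ 1 := by
      have := (Nat.dvd_add_right h4).1 (by rw [Nat.sub_add_cancel hlam]; exact hpl)
      exact this
    exact hp.one_lt.ne' (Nat.dvd_one.1 h5)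

end

end Pool.Agent.N345.Sym
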