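import Pool.Agent.N345.Sym.Many

set_option autoImplicit false
set_option linter.unusedSectionVars false

/-!
# Symmetric designs: automorphisms that fix all points of a block
-/

namespace Pool.Agent.N345.Sym

open Finset

section
variable {v k lam : ℕ} {B : Fin v → Finset (Fin v)} {b : Fin v} {σ : Equiv.Perm (Fin v)}

/-- `σ ≠ 1` is an automorphism fixing all points of the block `b` -/
structure Ax (B : Fin v → Finset (Fin v)) (b : Fin v) (σ : Equiv.Perm (Fin v)) : Prop where
  aut : Aut B σ
  ne : σ ≠ 1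
  fix : ∀ x ∈ B b, σ x = x

/-- all blocks through `c` are fixed -/
def Cen (B : Fin v → Finset (Fin v)) (σ : Equiv.Perm (Fin v)) (c : Fin v) : Prop :=
  ∀ i, c ∈ B i → i ∈ fixB B σ

theorem Ax.mem (a : Ax B b σ) : b ∈ fixB B σ := by
  rw [mem_fixB]
  ext x
  rw [mem_image]
  constructor
  · rintro ⟨y, hy, rfl⟩
    rw [a.fix y hy]
    exact hy
  · intro hx
    exact ⟨x, hx, a.fix x hx⟩

theorem Ax.moved (a : Ax B b σ) {x : Fin v} (hx : σ x ≠ x) : x ∉ B b :=
  fun h => hx (a.fix x h)

variable (h : Des v k lam B) (hlam : 1 ≤ lam)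
include h hlam

theorem Cen.fixed {c : Fin v} (hc : Cen B σ c) : σ c = c := by
  by_contra hne
  have h1 := fixB_through h hlam hne
  have h2 : ((fixB B σ).filter fun i => c ∈ B i) = univ.filter fun i => c ∈ B i := by
    ext i
    simp only [mem_filter, mem_univ, true_and, and_iff_right_iff_imp]
    exact hc i
  rw [h2, h.rep hlam] at h1
  have := h.lam_lt hlam
  omega

theorem moved_block (a : Ax B b σ) {i : Fin v} (hi : i ∉ fixB B σ) {x : Fin v} (hx : x ∈ B i)
    (hx2 : σ x ∈ B i) : x ∈ B b := by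
  obtain ⟨j, hj⟩ := a.aut i
  have hij : i ≠ j := by
    rintro rfl
    exact hi (mem_fixB.2 hj)
  have hib : i ≠ b := by
    rintro rfl
    exact hi a.mem
  have h1 : B i ∩ B b ⊆ B i ∩ B j := by
    intro y hy
    rw [mem_inter] at hy ⊢
    refine ⟨hy.1, ?_⟩
    rw [← hj, mem_image]
    exact ⟨y, hy.1, a.fix y hy.2⟩
  have h2 : B i ∩ B b = B i ∩ B j :=
    eq_of_subset_of_card_le h1 (by rw [h.inter hlam hij, h.inter hlam hib])
  have h3 : σ x ∈ B i ∩ B b := by
    rw [h2, mem_inter]
    exact ⟨hx2, by rw [← hj]; exact mem_image_of_mem _ hx⟩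
  have h4 := a.fix _ (mem_inter.1 h3).2
  have h5 : σ x = x := σ.injective h4
  rw [h5] at h3
  exact (mem_inter.1 h3).2

/-- a fixed point off the axis is a centre -/
theorem cen_of_fixed (a : Ax B b σ) {x : Fin v} (hx : σ x = x) (hxb : x ∉ B b) : Cen B σ x := by
  intro i hi
  by_contra hcon
  exact hxb (moved_block h hlam a hcon hi (by rw [hx]; exact hi))

/-- the fixed blocks through a moved point -/
theorem fixed_through (a : Ax B b σ) {x : Fin v} (hx : σ x ≠ x) :
    ((fixB B σ).filter fun i => x ∈ B i) = univ.filter (fun i => x ∈ B i ∧ σ x ∈ B i) := by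
  ext i
  simp only [mem_filter, mem_univ, true_and]
  constructor
  · rintro ⟨h1, h2⟩
    exact ⟨h2, map_mem h1 h2⟩
  · rintro ⟨h1, h2⟩
    refine ⟨?_, h1⟩
    by_contra hcon
    exact hx (a.fix x (moved_block h hlam a hcon h1 h2))

theorem card_fixed_through (a : Ax B b σ) {x : Fin v} (hx : σ x ≠ x) :
    ((fixB B σ).filter fun i => x ∈ B i).card = lam := by
  rw [fixed_through h hlam a hx, h.pair x (σ x) (Ne.symm hx)]

theorem fixed_through_cen (a : Ax B b σ) {x c : Fin v} (hx : σ x ≠ x) (hc : Cen B σ c) {i : Fin v}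
    (hi : i ∈ fixB B σ) (hxi : x ∈ B i) : c ∈ B i := by
  have hcf := hc.fixed h hlam
  have hxc : x ≠ c := by
    rintro rfl
    exact hx hcf
  have h1 : univ.filter (fun i => x ∈ B i ∧ c ∈ B i) ⊆ (fixB B σ).filter fun i => x ∈ B i := by
    intro j hj
    simp only [mem_filter, mem_univ, true_and] at hj
    rw [mem_filter]
    exact ⟨hc j hj.2, hj.1⟩
  have h2 := eq_of_subset_of_card_le h1
    (by rw [card_fixed_through h hlam a hx, h.pair x c hxc])
  have h3 : i ∈ (fixB B σ).filter fun i => x ∈ B i := mem_filter.2 ⟨hi, hxi⟩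
  rw [← h2] at h3
  exact (mem_filter.1 h3).2.2

/-- there is at most one centre -/
theorem cen_unique (a : Ax B b σ) (hk : lam * (lam + 2) < k) {c c' : Fin v} (hc : Cen B σ c)
    (hc' : Cen B σ c') : c = c' := by
  by_contra hne
  have h1 : (univ : Finset (Fin v)) ⊆ fixP σ ∪
      (univ.filter (fun i => c ∈ B i ∧ c' ∈ B i)).biUnion B := by
    intro x _
    rw [mem_union, mem_fixP]
    by_cases hx : σ x = x
    · exact Or.inl hx
    · right
      have h2 := card_fixed_through h hlam a hx
      obtain ⟨i, hi⟩ := card_pos.1 (by rw [h2]; omega)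
      rw [mem_filter] at hi
      rw [mem_biUnion]
      refine ⟨i, ?_, hi.2⟩
      simp only [mem_filter, mem_univ, true_and]
      exact ⟨fixed_through_cen h hlam a hx hc hi.1 hi.2,
        fixed_through_cen h hlam a hx hc' hi.1 hi.2⟩
  have h2 := card_le_card h1
  have h3 : ((univ.filter (fun i => c ∈ B i ∧ c' ∈ B i)).biUnion B).card ≤ lam * k := by
    refine card_biUnion_le.trans ?_
    rw [sum_congr rfl (g := fun _ => k) (fun i _ => h.size i), sum_const, h.pair c c' hne,
      smul_eq_mul]
  have h4 := fixP_le h hlam a.aut a.ne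
  have h5 : v ≤ 2 * k + lam * k := by
    have := card_union_le (fixP σ) ((univ.filter (fun i => c ∈ B i ∧ c' ∈ B i)).biUnion B)
    rw [card_univ, Fintype.card_fin] at h2
    omega
  have h6 := h.count hlam
  have h7 := h.v2 hlam
  obtain ⟨w, rfl⟩ : ∃ w, v = w + 1 := ⟨v - 1, by omega⟩
  simp only [Nat.add_sub_cancel] at h6
  nlinarith

/-- what holds for a centre off the axis -/
theorem homology (a : Ax B b σ) (hk : lam * (lam + 2) < k) {c : Fin v} (hc : σ c = c)
    (hcb : c ∉ B b) : Cen B σ c ∧ (∀ x, σ x = x ↔ x ∈ B b ∨ x = c) ∧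
      ∀ i, i ∈ fixB B σ ↔ i = b ∨ c ∈ B i := by
  have hcc := cen_of_fixed h hlam a hc hcb
  have h1 : ∀ x, σ x = x ↔ x ∈ B b ∨ x = c := by
    intro x
    constructor
    · intro hx
      by_cases hxb : x ∈ B b
      · exact Or.inl hxb
      · exact Or.inr (cen_unique h hlam a hk (cen_of_fixed h hlam a hx hxb) hcc)
    · rintro (hx | rfl)
      · exact a.fix x hx
      · exact hc
  refine ⟨hcc, h1, ?_⟩
  intro i
  constructor
  · intro hi
    by_cases hib : i = b
    · exact Or.inl hib
    · right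
      obtain ⟨x, hx, hxb⟩ : ∃ x ∈ B i, x ∉ B b := by
        by_contra hcon
        push Not at hcon
        have h2 := h.inter hlam hib
        rw [inter_eq_left.2 hcon, h.size] at h2
        have := h.lam_lt hlam
        omega
      by_cases hxf : σ x = x
      · rcases (h1 x).1 hxf with h3 | h3
        · exact absurd h3 hxb
        · rw [← h3]; exact hx
      · exact fixed_through_cen h hlam a hxf hcc hi hx
  · rintro (rfl | hi)
    · exact a.mem
    · exact hcc i hi

end

end Pool.Agent.N345.Sym
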