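import Pool.Agent.N345.Sym.Axial

set_option autoImplicit false
set_option linter.unusedSectionVars false

/-!
# Symmetric designs: axial automorphisms without fixed points off the axis have a centre
-/

namespace Pool.Agent.N345.Sym

open Finset

section
variable {v k lam : ℕ} {B : Fin v → Finset (Fin v)} {b : Fin v} {σ : Equiv.Perm (Fin v)}

/-- the number of blocks of the family `F` through `x` -/
def dg (B : Fin v → Finset (Fin v)) (F : Finset (Fin v)) (x : Fin v) : ℕ :=
  (F.filter fun i => x ∈ B i).card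

theorem dc1 (F X : Finset (Fin v)) : ∑ i ∈ F, (X ∩ B i).card = ∑ x ∈ X, dg B F x := by
  have h2 : ∀ i, (X ∩ B i).card = ∑ x ∈ X, if x ∈ B i then 1 else 0 := by
    intro i
    rw [← card_filter, filter_mem_eq_inter]
  simp_rw [h2, dg, card_filter]
  rw [sum_comm]

theorem dc2 (F X : Finset (Fin v)) :
    ∑ i ∈ F, ∑ j ∈ F, (X ∩ (B i ∩ B j)).card = ∑ x ∈ X, dg B F x ^ 2 := by
  have h2 : ∀ i j, (X ∩ (B i ∩ B j)).card =
      ∑ x ∈ X, (if x ∈ B i then 1 else 0) * (if x ∈ B j then 1 else 0) := by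
    intro i j
    have : (X ∩ (B i ∩ B j)).card = ∑ x ∈ X, if x ∈ B i ∩ B j then 1 else 0 := by
      rw [← card_filter, filter_mem_eq_inter]
    rw [this]
    refine sum_congr rfl fun x _ => ?_
    by_cases hi : x ∈ B i <;> by_cases hj : x ∈ B j <;> simp [hi, hj]
  simp_rw [h2, dg, card_filter, sq, sum_mul_sum]
  rw [sum_congr rfl (g := fun i => ∑ x ∈ X, ∑ j ∈ F,
    (if x ∈ B i then 1 else 0) * (if x ∈ B j then 1 else 0)) (fun i _ => sum_comm), sum_comm]

variable (h : Des v k lam B) (hlam : 1 ≤ lam)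
include h hlam

/-- traces of a subfamily on a block: few pairs of traces share two points -/
theorem traces {G : Finset (Fin v)} {i : Fin v} (hib : i ≠ b) :
    ∑ j ∈ G, (B b ∩ (B i ∩ B j)).card ≤ G.card + lam ^ 3 := by
  have h1 : ∀ j, (B b ∩ (B i ∩ B j)).card ≤
      1 + ∑ p ∈ (B b ∩ B i).offDiag, if p.1 ∈ B j ∧ p.2 ∈ B j then 1 else 0 := by
    intro j
    rw [← card_filter]
    have h2 : ((B b ∩ B i).offDiag.filter fun p => p.1 ∈ B j ∧ p.2 ∈ B j) =
        (B b ∩ (B i ∩ B j)).offDiag := by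
      ext p
      simp only [mem_filter, mem_offDiag, mem_inter]
      tauto
    rw [h2, offDiag_card]
    set n := (B b ∩ (B i ∩ B j)).card
    rcases Nat.lt_or_ge n 2 with hn | hn
    · omega
    · obtain ⟨m, hm⟩ : ∃ m, n = m + 2 := ⟨n - 2, by omega⟩
      rw [hm]
      have : (m + 2) * (m + 2) - (m + 2) = (m + 2) * (m + 1) := by
        rw [Nat.sub_eq_iff_eq_add (by nlinarith)]
        ring
      rw [this]
      nlinarith
  calc ∑ j ∈ G, (B b ∩ (B i ∩ B j)).card
      ≤ ∑ j ∈ G, (1 + ∑ p ∈ (B b ∩ B i).offDiag, if p.1 ∈ B j ∧ p.2 ∈ B j then 1 else 0) :=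
        sum_le_sum fun j _ => h1 j
    _ = G.card + ∑ p ∈ (B b ∩ B i).offDiag, (G.filter fun j => p.1 ∈ B j ∧ p.2 ∈ B j).card := by
        rw [sum_add_distrib, sum_comm, sum_const, smul_eq_mul, mul_one]
        simp_rw [← card_filter]
    _ ≤ G.card + ∑ p ∈ (B b ∩ B i).offDiag, lam := by
        gcongr with p hp
        rw [mem_offDiag] at hp
        rw [← h.pair p.1 p.2 hp.2.2]
        exact card_le_card (filter_subset_filter _ (subset_univ _))
    _ ≤ G.card + lam ^ 3 := by
        rw [sum_const, smul_eq_mul, offDiag_card, h.inter hlam (Ne.symm hib)]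
        have : lam * lam - lam ≤ lam * lam := Nat.sub_le _ _
        have h3 : (lam * lam - lam) * lam ≤ lam * lam * lam := Nat.mul_le_mul_right _ this
        have h4 : lam ^ 3 = lam * lam * lam := by ring
        omega

theorem traces_through {G : Finset (Fin v)} {i c : Fin v} (hib : i ≠ b) (hc : c ∉ B i) :
    ∑ j ∈ G.filter (fun j => c ∈ B j), (B b ∩ (B i ∩ B j)).card ≤ lam ^ 2 := by
  have h1 : ∀ j, (B b ∩ (B i ∩ B j)).card = ((B b ∩ B i) ∩ B j).card := by
    intro j
    rw [inter_assoc]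
  simp_rw [h1]
  rw [dc1, sq]
  calc ∑ x ∈ B b ∩ B i, dg B (G.filter fun j => c ∈ B j) x ≤ ∑ x ∈ B b ∩ B i, lam := by
        refine sum_le_sum fun x hx => ?_
        rw [mem_inter] at hx
        have hxc : c ≠ x := by
          rintro rfl
          exact hc hx.2
        rw [← h.pair c x hxc, dg, filter_filter]
        exact card_le_card (filter_subset_filter _ (subset_univ _))
    _ = lam * lam := by rw [sum_const, smul_eq_mul, h.inter hlam (Ne.symm hib)]

/-- `lam (v - k) = (k - 1) (k - lam)` -/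
theorem outside : lam * (v - k) = (k - 1) * (k - lam) := by
  have h1 := h.count hlam
  have h2 := h.lam_lt hlam
  have h3 := h.lt
  obtain ⟨n, rfl⟩ : ∃ n, k = lam + n + 1 := ⟨k - lam - 1, by omega⟩
  obtain ⟨w, rfl⟩ : ∃ w, v = lam + n + 1 + w := ⟨v - (lam + n + 1), by omega⟩
  have e1 : lam + n + 1 + w - (lam + n + 1) = w := by omega
  have e2 : lam + n + 1 - 1 = lam + n := by omega
  have e3 : lam + n + 1 - lam = n + 1 := by omega
  have e4 : lam + n + 1 + w - 1 = lam + n + w := by omega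
  rw [e1, e2, e3]
  rw [e4] at h1
  nlinarith

/-- the number of fixed blocks other than the axis -/
theorem card_fixed (a : Ax B b σ) (hno : ∀ x, σ x = x → x ∈ B b) :
    ((fixB B σ).erase b).card = k - 1 := by
  set F := (fixB B σ).erase b with hF
  have hdeg : ∀ x ∈ (B b)ᶜ, dg B F x = lam := by
    intro x hx
    rw [mem_compl] at hx
    have hxm : σ x ≠ x := fun e => hx (hno x e)
    rw [← card_fixed_through h hlam a hxm, dg]
    congr 1
    ext i
    simp only [hF, mem_filter, mem_erase]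
    constructor
    · rintro ⟨⟨_, h1⟩, h2⟩
      exact ⟨h1, h2⟩
    · rintro ⟨h1, h2⟩
      refine ⟨⟨?_, h1⟩, h2⟩
      rintro rfl
      exact hx h2
  have h1 := dc1 (B := B) F (B b)ᶜ
  rw [sum_congr rfl hdeg, sum_const, card_compl, Fintype.card_fin, h.size, smul_eq_mul] at h1
  have h2 : ∀ i ∈ F, ((B b)ᶜ ∩ B i).card = k - lam := by
    intro i hi
    have hib : i ≠ b := (mem_erase.1 hi).1
    have h3 := card_inter_add_card_sdiff (B i) (B b)
    rw [h.inter hlam hib, h.size] at h3
    have h4 : (B b)ᶜ ∩ B i = B i \ B b := by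
      ext x
      simp [and_comm]
    rw [h4]
    omega
  rw [sum_congr rfl h2, sum_const, smul_eq_mul, mul_comm (v - k) lam, outside h hlam] at h1
  have := h.lam_lt hlam
  exact Nat.eq_of_mul_eq_mul_right (by omega) h1

theorem deg_outside (a : Ax B b σ) (hno : ∀ x, σ x = x → x ∈ B b) {x : Fin v}
    (hx : x ∉ B b) : dg B ((fixB B σ).erase b) x = lam := by
  have hxm : σ x ≠ x := fun e => hx (hno x e)
  rw [← card_fixed_through h hlam a hxm, dg]
  congr 1
  ext i
  simp only [mem_filter, mem_erase]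
  constructor
  · rintro ⟨⟨_, h1⟩, h2⟩
    exact ⟨h1, h2⟩
  · rintro ⟨h1, h2⟩
    refine ⟨⟨?_, h1⟩, h2⟩
    rintro rfl
    exact hx h2

/-- second moment of the degrees on the axis -/
theorem second (hlam2 : 2 ≤ lam) (a : Ax B b σ) (hno : ∀ x, σ x = x → x ∈ B b) :
    k * (k - 1) ≤ ∑ y ∈ B b, dg B ((fixB B σ).erase b) y ^ 2 := by
  set F := (fixB B σ).erase b with hF
  have hm : F.card = k - 1 := card_fixed h hlam a hno
  have h1 := dc2 (B := B) F univ
  have h2 : ∑ i ∈ F, ∑ j ∈ F, (univ ∩ (B i ∩ B j)).card = (k - 1) * (k + (k - 2) * lam) := by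
    rw [← hm, ← smul_eq_mul, ← sum_const]
    refine sum_congr rfl fun i hi => ?_
    rw [← add_sum_erase _ _ hi]
    congr 1
    · rw [univ_inter, inter_self, h.size]
    · rw [sum_congr rfl (g := fun _ => lam), sum_const, card_erase_of_mem hi, hm, smul_eq_mul]
      · congr 1
      · intro j hj
        rw [univ_inter, h.inter hlam (mem_erase.1 hj).1.symm]
  rw [h2, ← sum_add_sum_compl (B b)] at h1
  have h3 : ∑ x ∈ (B b)ᶜ, dg B F x ^ 2 = (v - k) * lam ^ 2 := by
    rw [sum_congr rfl (g := fun _ => lam ^ 2), sum_const, card_compl, Fintype.card_fin, h.size,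
      smul_eq_mul]
    intro x hx
    rw [mem_compl] at hx
    rw [hF, deg_outside h hlam a hno hx]
  rw [h3] at h1
  have h4 : (v - k) * lam ^ 2 = lam * ((k - 1) * (k - lam)) := by
    rw [← outside h hlam]
    ring
  rw [h4] at h1
  have h5 := h.lam_lt hlam
  obtain ⟨n, hn⟩ : ∃ n, k = lam + n + 1 := ⟨k - lam - 1, by omega⟩
  have e2 : k - 1 = lam + n := by omega
  have e3 : k - lam = n + 1 := by omega
  obtain ⟨l, hl⟩ : ∃ l, lam = l + 2 := ⟨lam - 2, by omega⟩
  have e4 : k - 2 = l + 1 + n := by omega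
  rw [e2, e3, e4] at h1
  rw [e2, hn]
  set S := ∑ x ∈ B b, dg B F x ^ 2
  rw [hn] at h1
  subst hl
  have h6 : S = (l + 2 + n) * (l + n + 3 + (l + 2) * l) := by
    refine Nat.add_right_cancel (m := (l + 2) * ((l + 2 + n) * (n + 1))) ?_
    rw [← h1]
    ring
  rw [h6]
  calc (l + 2 + n + 1) * (l + 2 + n) = (l + 2 + n) * (l + n + 3) := by ring
    _ ≤ (l + 2 + n) * (l + n + 3 + (l + 2) * l) := Nat.mul_le_mul_left _ (Nat.le_add_right _ _)

omit h hlam in
theorem numeric {k lam d e : ℕ} (hk : k = d + e + 1) (hd : k ≤ lam * d) (hkl : 2 * lam ^ 3 ≤ k)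
    (hl : 1 ≤ lam)
    (hS : k * (k - 1) ≤ d * (k - 1 + lam ^ 3) + e * (lam ^ 2 + (e + lam ^ 3))) :
    e ≤ 2 * lam ^ 4 := by
  have e1 : k - 1 = d + e := by omega
  rw [e1] at hS
  have hd2 : 2 * lam ^ 2 ≤ d := by
    have : lam * (2 * lam ^ 2) ≤ lam * d := by
      calc lam * (2 * lam ^ 2) = 2 * lam ^ 3 := by ring
        _ ≤ k := hkl
        _ ≤ lam * d := hd
    exact Nat.le_of_mul_le_mul_left this hl
  have hd0 : 0 < d := by
    have : 0 < lam ^ 2 := pow_pos hl 2
    omega
  have h1 : d * e ≤ (d + e) * lam ^ 3 + e * lam ^ 2 := by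
    rw [hk] at hS
    nlinarith
  have h2 : (d + e) * lam ^ 3 ≤ lam ^ 4 * d := by
    calc (d + e) * lam ^ 3 ≤ (lam * d) * lam ^ 3 := by gcongr; omega
      _ = lam ^ 4 * d := by ring
  have h3 : e * (2 * lam ^ 2) ≤ e * d := Nat.mul_le_mul_left _ hd2
  have h4 : d * e ≤ d * (2 * lam ^ 4) := by nlinarith
  exact Nat.le_of_mul_le_mul_left h4 hd0

theorem elation (hlam2 : 2 ≤ lam) (hk : 2 * lam ^ 5 + lam < k) (a : Ax B b σ)
    (hno : ∀ x, σ x = x → x ∈ B b) :
    ∃ c ∈ B b, Cen B σ c ∧ ∀ i, i ∈ fixB B σ ↔ c ∈ B i := by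
  classical
  set F := (fixB B σ).erase b with hF
  have hm : F.card = k - 1 := card_fixed h hlam a hno
  have hS := second h hlam hlam2 a hno
  rw [← hF] at hS
  have hk2 := h.two_le
  have hFb : ∀ i ∈ F, i ≠ b := fun i hi => (mem_erase.1 hi).1
  have hFf : ∀ i ∈ F, i ∈ fixB B σ := fun i hi => (mem_erase.1 hi).2
  -- a point of large degree
  have hsum : ∑ y ∈ B b, dg B F y = lam * (k - 1) := by
    rw [← dc1, sum_congr rfl (g := fun _ => lam), sum_const, hm, smul_eq_mul, mul_comm]
    intro i hi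
    exact h.inter hlam (hFb i hi).symm
  obtain ⟨c, hcb, hc⟩ : ∃ c ∈ B b, k ≤ lam * dg B F c := by
    by_contra hcon
    push Not at hcon
    have h1 : lam * ∑ y ∈ B b, dg B F y ^ 2 ≤ (k - 1) * (lam * (k - 1)) := by
      rw [mul_sum, ← hsum, mul_sum]
      refine sum_le_sum fun y hy => ?_
      have := hcon y hy
      calc lam * dg B F y ^ 2 = (lam * dg B F y) * dg B F y := by ring
        _ ≤ (k - 1) * dg B F y := by gcongr; omega
    have h2 : lam * (k * (k - 1)) ≤ (k - 1) * (lam * (k - 1)) :=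
      (Nat.mul_le_mul_left _ hS).trans h1
    obtain ⟨n, rfl⟩ : ∃ n, k = n + 2 := ⟨k - 2, by omega⟩
    simp only [show n + 2 - 1 = n + 1 by omega] at h2
    nlinarith
  set E := F.filter fun i => c ∉ B i with hE
  have hde : dg B F c + E.card = k - 1 := by
    rw [← hm, dg, hE]
    exact card_filter_add_card_filter_not _
  -- upper bound for the second moment
  have hup : ∑ y ∈ B b, dg B F y ^ 2 ≤
      dg B F c * (k - 1 + lam ^ 3) + E.card * (lam ^ 2 + (E.card + lam ^ 3)) := by
    rw [← dc2, ← sum_filter_add_sum_filter_not F (fun i => c ∈ B i)]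
    refine add_le_add ?_ ?_
    · rw [dg, ← smul_eq_mul, ← sum_const]
      refine sum_le_sum fun i hi => ?_
      rw [← hm]
      exact traces h hlam (hFb i (mem_filter.1 hi).1)
    · rw [← hE, ← smul_eq_mul, ← sum_const]
      refine sum_le_sum fun i hi => ?_
      rw [hE, mem_filter] at hi
      rw [← sum_filter_add_sum_filter_not F (fun j => c ∈ B j)]
      exact add_le_add (traces_through h hlam (hFb i hi.1) hi.2) (traces h hlam (hFb i hi.1))
  have h5 : lam ^ 3 ≤ lam ^ 5 := Nat.pow_le_pow_right hlam (by norm_num)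
  have he := numeric (k := k) (lam := lam) (d := dg B F c) (e := E.card) (by omega) hc
    (by omega) hlam (hS.trans hup)
  -- the blocks through `c` that are not fixed
  set N := univ.filter fun i => c ∈ B i ∧ i ∉ fixB B σ with hN
  have hNcard : N.card = E.card := by
    have h1 : (univ.filter fun i => c ∈ B i).card = (insert b (F.filter fun i => c ∈ B i)).card +
        N.card := by
      rw [← card_filter_add_card_filter_not (s := univ.filter fun i => c ∈ B i)
        (fun i => i ∈ fixB B σ)]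
      congr 2
      · ext i
        simp only [mem_filter, mem_univ, true_and, mem_insert, hF, mem_erase]
        constructor
        · rintro ⟨h1, h2⟩
          by_cases hib : i = b
          · exact Or.inl hib
          · exact Or.inr ⟨⟨hib, h2⟩, h1⟩
        · rintro (rfl | ⟨⟨_, h2⟩, h1⟩)
          · exact ⟨hcb, a.mem⟩
          · exact ⟨h1, h2⟩
      · ext i
        simp [hN]
    rw [h.rep hlam, card_insert_of_notMem (by simp [hF])] at h1
    have h2 : dg B F c = (F.filter fun i => c ∈ B i).card := rfl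
    omega
  have hE0 : E = ∅ := by
    by_contra hne
    obtain ⟨A, hA⟩ := nonempty_iff_ne_empty.2 hne
    rw [hE, mem_filter] at hA
    have hcov : B A \ B b ⊆ N.biUnion fun i => B A ∩ B i := by
      intro x hx
      rw [mem_sdiff] at hx
      have hxm : σ x ≠ x := fun e => hx.2 (hno x e)
      by_contra hcon
      have hall : ∀ i, x ∈ B i → c ∈ B i → i ∈ fixB B σ := by
        intro i h1 h2
        by_contra h3
        refine hcon (mem_biUnion.2 ⟨i, ?_, mem_inter.2 ⟨hx.1, h1⟩⟩)
        simp [hN, h2, h3]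
      have hxc : x ≠ c := by
        rintro rfl
        exact hx.2 hcb
      have h1 : univ.filter (fun i => x ∈ B i ∧ c ∈ B i) ⊆
          (fixB B σ).filter fun i => x ∈ B i := by
        intro j hj
        simp only [mem_filter, mem_univ, true_and] at hj
        rw [mem_filter]
        exact ⟨hall j hj.1 hj.2, hj.1⟩
      have h2 := eq_of_subset_of_card_le h1
        (by rw [card_fixed_through h hlam a hxm, h.pair x c hxc])
      have h3 : A ∈ (fixB B σ).filter fun i => x ∈ B i := mem_filter.2 ⟨hFf A hA.1, hx.1⟩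
      rw [← h2] at h3
      exact hA.2 (mem_filter.1 h3).2.2
    have h1 := (card_le_card hcov).trans card_biUnion_le
    have h2 : ∑ i ∈ N, (B A ∩ B i).card = N.card * lam := by
      rw [sum_congr rfl (g := fun _ => lam), sum_const, smul_eq_mul]
      intro i hi
      refine h.inter hlam ?_
      rintro rfl
      exact (mem_filter.1 hi).2.2 (hFf _ hA.1)
    have h3 := card_inter_add_card_sdiff (B A) (B b)
    rw [h.inter hlam (hFb A hA.1), h.size] at h3
    rw [h2, hNcard] at h1
    have h4 : E.card * lam ≤ 2 * lam ^ 4 * lam := Nat.mul_le_mul_right _ he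
    have h6 : 2 * lam ^ 4 * lam = 2 * lam ^ 5 := by ring
    omega
  have hN0 : N = ∅ := by
    rw [← card_eq_zero, hNcard, hE0, card_empty]
  have hcen : Cen B σ c := by
    intro i hi
    by_contra hcon
    have : i ∈ N := by simp [hN, hi, hcon]
    rw [hN0] at this
    simp at this
  refine ⟨c, hcb, hcen, fun i => ⟨fun hi => ?_, hcen i⟩⟩
  by_cases hib : i = b
  · rw [hib]; exact hcb
  · by_contra hcon
    have : i ∈ E := by
      rw [hE, mem_filter, hF, mem_erase]
      exact ⟨⟨hib, hi⟩, hcon⟩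
    rw [hE0] at this
    simp at this

/-- **The structure of an axial automorphism.** -/
theorem axial (hlam2 : 2 ≤ lam) (hk : 2 * lam ^ 5 + lam < k) (a : Ax B b σ) :
    ∃ c, Cen B σ c ∧ (∀ x, σ x = x ↔ x ∈ B b ∨ x = c) ∧ ∀ i, i ∈ fixB B σ ↔ i = b ∨ c ∈ B i := by
  have hk2 : lam * (lam + 2) < k := by
    have h1 : lam ^ 2 ≤ lam ^ 5 := Nat.pow_le_pow_right hlam (by norm_num)
    have h2 : lam * 2 ^ 4 ≤ lam * lam ^ 4 := Nat.mul_le_mul_left _ (Nat.pow_le_pow_left hlam2 4)
    have h3 : lam * lam ^ 4 = lam ^ 5 := by ring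
    nlinarith
  by_cases hno : ∀ x, σ x = x → x ∈ B b
  · obtain ⟨c, hcb, hc, hf⟩ := elation h hlam hlam2 hk a hno
    refine ⟨c, hc, ?_, ?_⟩
    · intro x
      constructor
      · intro hx
        exact Or.inl (hno x hx)
      · rintro (hx | rfl)
        · exact a.fix x hx
        · exact a.fix x hcb
    · intro i
      rw [hf]
      constructor
      · exact Or.inr
      · rintro (rfl | hi)
        · exact hcb
        · exact hi
  · push Not at hno
    obtain ⟨c, hc, hcb⟩ := hno
    exact ⟨c, homology h hlam a hk2 hc hcb⟩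

end

end Pool.Agent.N345.Sym
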