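import Pool.Agent.N345.Sym.Basic

set_option autoImplicit false
set_option linter.unusedSectionVars false

/-!
# Symmetric designs: common fixed points of more than `lam` automorphisms
-/

namespace Pool.Agent.N345.Sym

open Finset

section
variable {v k lam : ℕ} {B : Fin v → Finset (Fin v)}
variable (h : Des v k lam B) (hlam : 1 ≤ lam) (H : Subgroup (Equiv.Perm (Fin v)))
  (hH : ∀ σ ∈ H, Aut B σ)

open Classical in
/-- the elements of the group `H` -/
noncomputable def els (H : Subgroup (Equiv.Perm (Fin v))) : Finset (Equiv.Perm (Fin v)) :=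
  univ.filter fun σ => σ ∈ H

theorem mem_els {σ : Equiv.Perm (Fin v)} : σ ∈ els H ↔ σ ∈ H := by simp [els]

theorem card_els : (els H).card = Nat.card H := by
  classical
  rw [Nat.card_eq_fintype_card, Fintype.card_subtype]
  rfl

open Classical in
/-- the common fixed points -/
noncomputable def com (H : Subgroup (Equiv.Perm (Fin v))) : Finset (Fin v) :=
  univ.filter fun x => ∀ σ ∈ H, σ x = x

theorem mem_com {x : Fin v} : x ∈ com H ↔ ∀ σ ∈ H, σ x = x := by simp [com]

open Classical in
/-- the elements of `H` fixing the block `i` -/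
noncomputable def stb (B : Fin v → Finset (Fin v)) (H : Subgroup (Equiv.Perm (Fin v)))
    (i : Fin v) : Finset (Equiv.Perm (Fin v)) :=
  (els H).filter fun σ => i ∈ fixB B σ

include h hlam hH

/-- the stabilizer of a block with two common fixed points has index at most `lam` -/
theorem stb_large {i : Fin v} {x y : Fin v} (hxy : x ≠ y) (hx : x ∈ com H) (hy : y ∈ com H)
    (hxi : x ∈ B i) (hyi : y ∈ B i) : (els H).card ≤ lam * (stb B H i).card := by
  classical
  choose! f hf using hH
  rw [← h.pair x y hxy, mul_comm]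
  refine card_le_mul_card_image_of_maps_to (f := fun σ => f σ i) ?_ _ ?_
  · intro σ hσ
    rw [mem_els] at hσ
    simp only [mem_filter, mem_univ, true_and]
    have e := hf σ hσ i
    refine ⟨?_, ?_⟩
    · rw [← e, mem_image]
      exact ⟨x, hxi, (mem_com H).1 hx σ hσ⟩
    · rw [← e, mem_image]
      exact ⟨y, hyi, (mem_com H).1 hy σ hσ⟩
  · intro j hj
    by_cases hne : ((els H).filter fun σ => f σ i = j).Nonempty
    · obtain ⟨τ, hτ⟩ := hne
      rw [mem_filter, mem_els] at hτ
      refine card_le_card_of_injOn (fun σ => τ⁻¹ * σ) ?_ ?_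
      · intro σ hσ
        rw [mem_coe, mem_filter, mem_els] at hσ
        rw [mem_coe, stb, mem_filter, mem_els, mem_fixB]
        refine ⟨H.mul_mem (H.inv_mem hτ.1) hσ.1, ?_⟩
        have e1 := hf σ hσ.1 i
        have e2 := hf τ hτ.1 i
        rw [hσ.2] at e1
        rw [hτ.2, ← e1] at e2
        ext z
        simp only [mem_image, Equiv.Perm.coe_mul, Function.comp_apply]
        constructor
        · rintro ⟨w, hw, rfl⟩
          have : σ w ∈ (B i).image τ := by
            rw [e2]; exact mem_image_of_mem _ hw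
          obtain ⟨u, hu, hu2⟩ := mem_image.1 this
          rw [← hu2]
          simpa using hu
        · intro hz
          have : τ z ∈ (B i).image σ := by
            rw [← e2]; exact mem_image_of_mem _ hz
          obtain ⟨u, hu, hu2⟩ := mem_image.1 this
          exact ⟨u, hu, by rw [hu2]; simp⟩
      · intro σ _ σ' _ e
        exact mul_left_cancel e
    · rw [not_nonempty_iff_eq_empty] at hne
      rw [hne]
      simp

open Classical in
/-- the blocks with at least two common fixed points -/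
noncomputable def two (B : Fin v → Finset (Fin v)) (H : Subgroup (Equiv.Perm (Fin v))) :
    Finset (Fin v) :=
  univ.filter fun i => 2 ≤ (B i ∩ com H).card

theorem two_le' (hcard : lam < (els H).card) : (two B H).card ≤ 2 * k * lam ^ 2 := by
  classical
  have e1 : (two B H).card * (els H).card ≤ lam * ∑ i ∈ two B H, (stb B H i).card := by
    rw [mul_sum, ← smul_eq_mul, ← sum_const]
    refine sum_le_sum fun i hi => ?_
    rw [two, mem_filter] at hi
    obtain ⟨x, hx, y, hy, hxy⟩ := one_lt_card.1 (by omega : 1 < (B i ∩ com H).card)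
    rw [mem_inter] at hx hy
    exact stb_large h hlam H hH hxy hx.2 hy.2 hx.1 hy.1
  have e2 : ∑ i ∈ two B H, (stb B H i).card =
      ∑ σ ∈ els H, ((two B H).filter fun i => i ∈ fixB B σ).card := by
    simp_rw [stb, card_filter]
    rw [sum_comm]
  have e3 : ∑ σ ∈ els H, ((two B H).filter fun i => i ∈ fixB B σ).card ≤
      (two B H).card + ((els H).card - 1) * (2 * k) := by
    have h1 : (1 : Equiv.Perm (Fin v)) ∈ els H := (mem_els H).2 H.one_mem
    rw [← add_sum_erase _ _ h1]
    refine add_le_add (card_le_card (filter_subset _ _)) ?_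
    rw [← card_erase_of_mem h1, ← smul_eq_mul, ← sum_const]
    refine sum_le_sum fun σ hσ => ?_
    rw [mem_erase, mem_els] at hσ
    refine le_trans (card_le_card ?_) (fixB_le h hlam (hH σ hσ.2) hσ.1)
    intro i hi
    exact (mem_filter.1 hi).2
  set N := (two B H).card
  set g := (els H).card
  obtain ⟨m, hm⟩ : ∃ m, g = lam + m + 1 := ⟨g - lam - 1, by omega⟩
  have e4 : N * g ≤ lam * (N + (g - 1) * (2 * k)) := by
    calc N * g ≤ lam * ∑ i ∈ two B H, (stb B H i).card := e1
      _ ≤ _ := by rw [e2]; gcongr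
  rw [hm] at e4
  simp only [Nat.add_sub_cancel] at e4
  have e5 : N * (m + 1) ≤ 2 * k * lam * (lam + m) := by nlinarith
  have e6 : lam + m ≤ lam * (m + 1) := by nlinarith
  have e7 : N * (m + 1) ≤ 2 * k * lam ^ 2 * (m + 1) := by
    calc N * (m + 1) ≤ 2 * k * lam * (lam + m) := e5
      _ ≤ 2 * k * lam * (lam * (m + 1)) := by gcongr
      _ = _ := by ring
  exact Nat.le_of_mul_le_mul_right e7 (by omega)

/-- the sum over the blocks of the number of common fixed points -/
theorem sum_one (F : Finset (Fin v)) : ∑ i, (B i ∩ F).card = k * F.card := by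
  have h2 : ∀ i, (B i ∩ F).card = ∑ x ∈ F, if x ∈ B i then 1 else 0 := by
    intro i
    rw [← card_filter]
    congr 1
    ext x
    simp [and_comm]
  simp_rw [h2]
  rw [sum_comm]
  simp_rw [← card_filter, h.rep hlam]
  rw [sum_const, smul_eq_mul, mul_comm]

theorem sum_sq (F : Finset (Fin v)) :
    ∑ i, (B i ∩ F).card ^ 2 ≤ k * F.card + lam * F.card ^ 2 := by
  have h2 : ∀ i, (B i ∩ F).card ^ 2 =
      ∑ x ∈ F, ∑ y ∈ F, if x ∈ B i ∧ y ∈ B i then 1 else 0 := by
    intro i
    have : (B i ∩ F).card = ∑ x ∈ F, if x ∈ B i then 1 else 0 := by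
      rw [← card_filter]
      congr 1
      ext x
      simp [and_comm]
    rw [this, sq, sum_mul_sum]
    refine sum_congr rfl fun x _ => sum_congr rfl fun y _ => ?_
    by_cases hx : x ∈ B i <;> by_cases hy : y ∈ B i <;> simp [hx, hy]
  simp_rw [h2]
  rw [sum_comm]
  calc ∑ x ∈ F, ∑ i, ∑ y ∈ F, (if x ∈ B i ∧ y ∈ B i then 1 else 0)
      = ∑ x ∈ F, ∑ y ∈ F, (univ.filter fun i => x ∈ B i ∧ y ∈ B i).card := by
        refine sum_congr rfl fun x _ => ?_
        rw [sum_comm]
        refine sum_congr rfl fun y _ => ?_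
        rw [card_filter]
    _ ≤ ∑ x ∈ F, ∑ y ∈ F, (lam + if x = y then k else 0) := by
        refine sum_le_sum fun x _ => sum_le_sum fun y _ => ?_
        by_cases hxy : x = y
        · subst hxy
          rw [if_pos rfl]
          simp only [and_self]
          rw [h.rep hlam]
          omega
        · rw [h.pair x y hxy]
          omega
    _ = k * F.card + lam * F.card ^ 2 := by
        simp only [sum_add_distrib, sum_const, smul_eq_mul, sum_ite_eq]
        rw [sum_congr rfl (g := fun _ => k)]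
        · rw [sum_const, smul_eq_mul]
          ring
        · intro x hx
          rw [if_pos hx]

omit h hlam hH in
/-- the final computation -/
theorem final_ineq {v k lam f N S : ℕ} (hk : 0 < k) (hf : f ≤ 2 * k) (hN : N ≤ 2 * k * lam ^ 2)
    (e1 : k * f ≤ v + S) (e2 : S ^ 2 ≤ N * (k * f + lam * f ^ 2)) (hv : lam * v ≤ k * k) :
    (lam : ℝ) * f ≤ k + 2 * lam ^ 2 * Real.sqrt (2 * lam + 1) * Real.sqrt k := by
  have e3 : S ^ 2 ≤ (2 * k * lam ^ 2) * (k * (2 * k) + lam * (2 * k) ^ 2) := by
    refine e2.trans ?_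
    gcongr
  set a : ℝ := Real.sqrt (2 * lam + 1) with ha
  set b : ℝ := Real.sqrt k with hb
  have ha0 : 0 ≤ a := Real.sqrt_nonneg _
  have hb0 : 0 ≤ b := Real.sqrt_nonneg _
  have ha2 : a ^ 2 = 2 * lam + 1 := Real.sq_sqrt (by positivity)
  have hb2 : b ^ 2 = k := Real.sq_sqrt (by positivity)
  have hk0 : (0 : ℝ) < k := by exact_mod_cast hk
  have h3 : (S : ℝ) ^ 2 ≤ (2 * k * lam ^ 2) * (k * (2 * k) + lam * (2 * k) ^ 2) := by
    exact_mod_cast e3
  have h1 : (S : ℝ) ^ 2 ≤ (2 * lam * a * (k * b)) ^ 2 := by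
    have h2 : (2 * lam * a * (k * b)) ^ 2 = 4 * (lam : ℝ) ^ 2 * (2 * lam + 1) * (k ^ 2 * k) := by
      calc (2 * lam * a * (k * b)) ^ 2 = 4 * (lam : ℝ) ^ 2 * a ^ 2 * (k ^ 2 * b ^ 2) := by ring
        _ = _ := by rw [ha2, hb2]
    rw [h2]
    linarith
  have hnn : 0 ≤ 2 * (lam : ℝ) * a * (k * b) := by positivity
  have e4 : (S : ℝ) ≤ 2 * lam * a * (k * b) := le_trans (le_abs_self _) (abs_le_of_sq_le_sq h1 hnn)
  have e5 : (lam : ℝ) * v ≤ k * k := by exact_mod_cast hv
  have e6 : (k : ℝ) * f ≤ v + S := by exact_mod_cast e1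
  have hl0 : (0 : ℝ) ≤ lam := Nat.cast_nonneg _
  have e7 : (k : ℝ) * (lam * f) ≤ k * (k + 2 * lam ^ 2 * a * b) := by
    have g1 : (lam : ℝ) * (k * f) ≤ lam * (v + S) := mul_le_mul_of_nonneg_left e6 hl0
    have g2 : (lam : ℝ) * S ≤ lam * (2 * lam * a * (k * b)) := mul_le_mul_of_nonneg_left e4 hl0
    calc (k : ℝ) * (lam * f) = lam * (k * f) := by ring
      _ ≤ lam * (v + S) := g1
      _ = lam * v + lam * S := by ring
      _ ≤ k * k + lam * (2 * lam * a * (k * b)) := add_le_add e5 g2
      _ = k * (k + 2 * lam ^ 2 * a * b) := by ring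
  exact le_of_mul_le_mul_left e7 hk0

/-- the common fixed points of more than `lam` automorphisms -/
theorem com_le (hcard : lam < Nat.card H) :
    (lam : ℝ) * (com H).card ≤ k + 2 * lam ^ 2 * Real.sqrt (2 * lam + 1) * Real.sqrt k := by
  classical
  rw [← card_els H] at hcard
  set F := com H with hF
  have hk0 : (0 : ℝ) < k := by
    have := h.two_le
    exact_mod_cast (by omega : 0 < k)
  -- some nontrivial element
  obtain ⟨σ, hσ, hσ1⟩ : ∃ σ ∈ els H, σ ≠ 1 := by
    have : 1 < (els H).card := by omega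
    exact exists_mem_ne this 1
  rw [mem_els] at hσ
  have hf2 : F.card ≤ 2 * k := by
    refine le_trans (card_le_card ?_) (fixP_le h hlam (hH σ hσ) hσ1)
    intro x hx
    exact mem_fixP.2 ((mem_com H).1 hx σ hσ)
  have hN := two_le' h hlam H hH hcard
  have s1 := sum_one h hlam H hH F
  have s2 := sum_sq h hlam H hH F
  -- split the sum
  have e1 : k * F.card ≤ v + ∑ i ∈ two B H, (B i ∩ F).card := by
    rw [← s1, ← sum_filter_add_sum_filter_not univ (fun i => 2 ≤ (B i ∩ F).card)]
    rw [add_comm]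
    refine add_le_add ?_ le_rfl
    calc ∑ i ∈ univ.filter (fun i => ¬ 2 ≤ (B i ∩ F).card), (B i ∩ F).card
        ≤ ∑ i ∈ univ.filter (fun i => ¬ 2 ≤ (B i ∩ F).card), 1 := by
          refine sum_le_sum fun i hi => ?_
          have := (mem_filter.1 hi).2
          omega
      _ ≤ ∑ i : Fin v, 1 := sum_le_sum_of_subset (filter_subset _ _)
      _ = v := by simp
  have e2 : (∑ i ∈ two B H, (B i ∩ F).card) ^ 2 ≤ (two B H).card * (k * F.card + lam * F.card ^ 2) := by
    calc (∑ i ∈ two B H, (B i ∩ F).card) ^ 2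
        ≤ (two B H).card * ∑ i ∈ two B H, (B i ∩ F).card ^ 2 := sq_sum_le_card_mul_sum_sq
      _ ≤ (two B H).card * ∑ i, (B i ∩ F).card ^ 2 := by
          gcongr
          exact subset_univ _
      _ ≤ _ := by gcongr
  exact final_ineq (by have := h.two_le; omega) hf2 hN e1 e2 (h.lam_v hlam)

end

end Pool.Agent.N345.Sym
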